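import Pool.Agent.K1H53.KD.Plan2
import Pool.Agent.TH967.DP.Walk

/-!
Properties of the point-to-point partition functions (task 553, for MP_7d29a1_pr).
-/

open MeasureTheory ProbabilityTheory Set Filter TH967.DP
open scoped Topology

set_option linter.unusedSectionVars false

namespace Pool.Agent.K1H39.KD

open Pool.Agent.K1H38.DP Pool.Agent.K1H53.KD

variable {d : ℕ}

lemma par_iff (y : Fin d → ℤ) (n : ℕ) : ((∑ k, y k) - n) % 2 = 0 ↔ par y = (n : ZMod 2) := by
  have h1 : par y - (n : ZMod 2) = (((∑ k, y k) - n : ℤ) : ZMod 2) := by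
    unfold par
    push_cast
    rfl
  constructor
  · intro h
    have h2 : (2 : ℤ) ∣ (∑ k, y k) - n := Int.dvd_of_emod_eq_zero h
    have h3 := (ZMod.intCast_zmod_eq_zero_iff_dvd ((∑ k, y k) - n) 2).2 (by exact_mod_cast h2)
    rw [← h1] at h3
    exact sub_eq_zero.1 h3
  · intro h
    have h3 : (((∑ k, y k) - n : ℤ) : ZMod 2) = 0 := by rw [← h1, h, sub_self]
    have h4 := (ZMod.intCast_zmod_eq_zero_iff_dvd ((∑ k, y k) - n) 2).1 h3
    exact Int.emod_eq_zero_of_dvd (by exact_mod_cast h4)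

lemma reach_pos {n : ℕ} (w : Fin n → Step d) : reach n (pos w n) :=
  ⟨l1_pos_le w n, (par_iff _ _).2 (par_pos w le_rfl)⟩

lemma Zp_nonneg (β : ℝ) (η : ℕ → (Fin d → ℤ) → ℝ) (n : ℕ) (y : Fin d → ℤ) :
    0 ≤ Zp β η n y := by
  unfold Zp
  apply Finset.sum_nonneg
  intro w _
  split_ifs
  · exact (Real.exp_pos _).le
  · exact le_rfl

lemma Zp_ge (β : ℝ) (η : ℕ → (Fin d → ℤ) → ℝ) {n : ℕ} (w : Fin n → Step d) :
    Real.exp (β * energy η w) ≤ Zp β η n (pos w n) := by
  unfold Zp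
  have h := Finset.single_le_sum (f := fun w' : Fin n → Step d =>
    if pos w' n = pos w n then Real.exp (β * energy η w') else 0) (s := Finset.univ) (by
      intro w' _
      show 0 ≤ if pos w' n = pos w n then Real.exp (β * energy η w') else 0
      split_ifs
      · exact (Real.exp_pos _).le
      · exact le_rfl) (Finset.mem_univ w)
  simpa using h

lemma exists_reach [NeZero d] {n : ℕ} {y : Fin d → ℤ} (h : reach n y) :
    ∃ w : Fin n → Step d, pos w n = y :=
  exists_walk (Nat.pos_of_ne_zero (NeZero.ne d)) n y h.1 ((par_iff _ _).1 h.2)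

lemma Zp_pos [NeZero d] (β : ℝ) (η : ℕ → (Fin d → ℤ) → ℝ) (n : ℕ) (y : Fin d → ℤ)
    (h : reach n y) : 0 < Zp β η n y := by
  obtain ⟨w, rfl⟩ := exists_reach h
  exact lt_of_lt_of_le (Real.exp_pos _) (Zp_ge β η w)

lemma Zp_reach (β : ℝ) (η : ℕ → (Fin d → ℤ) → ℝ) (n : ℕ) (y : Fin d → ℤ)
    (h : 0 < Zp β η n y) : reach n y := by
  by_contra hc
  have : Zp β η n y = 0 := by
    unfold Zp
    apply Finset.sum_eq_zero
    intro w _
    rw [if_neg]
    intro hw
    exact hc (hw ▸ reach_pos w)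
  rw [this] at h
  exact lt_irrefl _ h

lemma Zp_dot (β : ℝ) (h : Fin d → ℝ) (η : ℕ → (Fin d → ℤ) → ℝ) (n : ℕ) (y : Fin d → ℤ) :
    Zp β η n y * Real.exp (dot h y) =
      ∑ w : Fin n → Step d, if pos w n = y then wgt β h η w else 0 := by
  unfold Zp
  rw [Finset.sum_mul]
  apply Finset.sum_congr rfl
  intro w _
  by_cases hw : pos w n = y
  · rw [if_pos hw, if_pos hw]
    unfold wgt
    rw [hw, ← Real.exp_add]
    congr 1
    ring
  · rw [if_neg hw, if_neg hw, zero_mul]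

lemma Zp_le_Zd (β : ℝ) (h : Fin d → ℝ) (η : ℕ → (Fin d → ℤ) → ℝ) (n : ℕ) (y : Fin d → ℤ) :
    Zp β η n y * Real.exp (dot h y) ≤ Zd β h η n := by
  rw [Zp_dot]
  unfold Zd
  apply Finset.sum_le_sum
  intro w _
  split_ifs
  · exact le_rfl
  · exact (wgt_pos _ _ _ _).le

lemma mem_box {n : ℕ} (w : Fin n → Step d) :
    pos w n ∈ Finset.Icc (fun _ : Fin d => -(n : ℤ)) (fun _ => (n : ℤ)) := by
  rw [Finset.mem_Icc]
  constructor
  · intro k
    exact (abs_le.1 (abs_pos_le w n k)).1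
  · intro k
    exact (abs_le.1 (abs_pos_le w n k)).2

lemma group_box {m : ℕ} (β : ℝ) (h : Fin d → ℝ) (η : ℕ → (Fin d → ℤ) → ℝ)
    (F : (Fin d → ℤ) → ℝ) :
    ∑ y ∈ Finset.Icc (fun _ : Fin d => -(m : ℤ)) (fun _ => (m : ℤ)),
      Zp β η m y * Real.exp (dot h y) * F y =
    ∑ w : Fin m → Step d, wgt β h η w * F (pos w m) := by
  have h1 : ∀ y, Zp β η m y * Real.exp (dot h y) * F y =
      ∑ w : Fin m → Step d, if pos w m = y then wgt β h η w * F y else 0 := by
    intro y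
    rw [Zp_dot, Finset.sum_mul]
    apply Finset.sum_congr rfl
    intro w _
    split_ifs
    · rfl
    · rw [zero_mul]
  rw [Finset.sum_congr rfl (fun y _ => h1 y), Finset.sum_comm]
  apply Finset.sum_congr rfl
  intro w _
  rw [Finset.sum_ite_eq, if_pos (mem_box w)]

lemma Zd_eq_box (β : ℝ) (h : Fin d → ℝ) (η : ℕ → (Fin d → ℤ) → ℝ) (n : ℕ) :
    Zd β h η n = ∑ y ∈ Finset.Icc (fun _ : Fin d => -(n : ℤ)) (fun _ => (n : ℤ)),
      Zp β η n y * Real.exp (dot h y) := by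
  have h1 := group_box (m := n) β h η (fun _ => (1 : ℝ))
  simp only [mul_one] at h1
  rw [h1]
  rfl

lemma Zp_app (β : ℝ) (η : ℕ → (Fin d → ℤ) → ℝ) (m n : ℕ) (y z : Fin d → ℤ) :
    Zp β η m y * Zp β (shift m y η) n z ≤ Zp β η (m + n) (y + z) := by
  unfold Zp
  rw [sum_append, Finset.sum_mul]
  apply Finset.sum_le_sum
  intro u _
  rw [Finset.mul_sum]
  apply Finset.sum_le_sum
  intro v _
  by_cases hu : pos u m = y
  · by_cases hv : pos v n = z
    · rw [if_pos hu, if_pos hv, if_pos (by rw [pos_append_right, hu, hv]), energy_append, hu,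
        ← Real.exp_add, mul_add]
    · rw [if_neg hv, mul_zero]
      split_ifs
      · exact (Real.exp_pos _).le
      · exact le_rfl
  · rw [if_neg hu, zero_mul]
    split_ifs
    · exact (Real.exp_pos _).le
    · exact le_rfl

lemma Zp_max [NeZero d] (β : ℝ) (g : Fin d → ℝ) (η : ℕ → (Fin d → ℤ) → ℝ) (n : ℕ) :
    ∃ x : Fin d → ℤ, reach n x ∧
      Zd β g η n ≤ (2 * (n : ℝ) + 1) ^ d * (Zp β η n x * Real.exp (dot g x)) := by
  have hne : (Finset.Icc (fun _ : Fin d => -(n : ℤ)) (fun _ => (n : ℤ))).Nonempty := by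
    refine ⟨fun _ => 0, Finset.mem_Icc.2 ⟨?_, ?_⟩⟩
    · intro k
      simp
    · intro k
      simp
  obtain ⟨x, hx, hmax⟩ := Finset.exists_max_image _
    (fun y => Zp β η n y * Real.exp (dot g y)) hne
  have hcard : ((Finset.Icc (fun _ : Fin d => -(n : ℤ)) (fun _ => (n : ℤ))).card : ℝ) =
      (2 * (n : ℝ) + 1) ^ d := by
    rw [Pi.card_Icc]
    simp only [Int.card_Icc, Finset.prod_const, Finset.card_univ, Fintype.card_fin]
    have : ((n : ℤ) + 1 - -(n : ℤ)).toNat = 2 * n + 1 := by omega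
    rw [this]
    push_cast
    rfl
  have hle : Zd β g η n ≤ (2 * (n : ℝ) + 1) ^ d * (Zp β η n x * Real.exp (dot g x)) := by
    rw [Zd_eq_box, ← hcard, ← nsmul_eq_mul]
    exact Finset.sum_le_card_nsmul _ _ _ (fun y hy => hmax y hy)
  refine ⟨x, ?_, hle⟩
  apply Zp_reach β η
  by_contra hc
  have h0 : Zp β η n x = 0 := le_antisymm (not_lt.1 hc) (Zp_nonneg _ _ _ _)
  rw [h0, zero_mul, mul_zero] at hle
  exact absurd (Zd_pos β g η n) (not_lt.2 hle)

lemma energy_le {n : ℕ} (η : ℕ → (Fin d → ℤ) → ℝ) (w : Fin n → Step d) {B : ℝ}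
    (hB : ∀ i : ℕ, 1 ≤ i → i ≤ n → ∀ x : Fin d → ℤ, (∀ k, |x k| ≤ (n : ℤ)) → |η i x| ≤ B) :
    |energy η w| ≤ n * B := by
  unfold energy
  refine (Finset.abs_sum_le_sum_abs _ _).trans ?_
  refine (Finset.sum_le_sum (fun i _ => hB _ (by omega) (by have := i.isLt; omega) _
    (abs_pos_le w _))).trans ?_
  rw [Finset.sum_const, Finset.card_univ, Fintype.card_fin, nsmul_eq_mul]

lemma Zp_crude [NeZero d] (β : ℝ) (η : ℕ → (Fin d → ℤ) → ℝ) (n : ℕ) (y : Fin d → ℤ) (B : ℝ)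
    (hy : reach n y)
    (hB : ∀ i : ℕ, 1 ≤ i → i ≤ n → ∀ x : Fin d → ℤ, (∀ k, |x k| ≤ (n : ℤ)) → |η i x| ≤ B) :
    -(n * (|β| * B)) ≤ Real.log (Zp β η n y) := by
  obtain ⟨w, rfl⟩ := exists_reach hy
  have h1 := Zp_ge β η w
  have h2 := Real.log_le_log (Real.exp_pos _) h1
  rw [Real.log_exp] at h2
  have h3 := energy_le η w hB
  have h4 : |β * energy η w| ≤ |β| * (n * B) := by
    rw [abs_mul]
    exact mul_le_mul_of_nonneg_left h3 (abs_nonneg _)
  have h5 := (abs_le.1 h4).1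
  linarith [h5, h2, mul_left_comm |β| (n : ℝ) B]

lemma measurable_Zp (β : ℝ) (n : ℕ) (y : Fin d → ℤ) :
    Measurable (fun η : ℕ → (Fin d → ℤ) → ℝ => Zp β η n y) := by
  unfold Zp energy
  apply Finset.measurable_sum
  intro w _
  split_ifs
  · apply Real.measurable_exp.comp
    apply Measurable.const_mul
    apply Finset.measurable_sum
    intro i _
    exact (measurable_pi_apply _).comp (measurable_pi_apply _)
  · exact measurable_const

theorem zapi [NeZero d] : ZApi d where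
  nonneg := Zp_nonneg
  le_Zd := Zp_le_Zd
  split := by
    intro β h η m n
    rw [Zd_append, group_box β h η (fun y => Zd β h (shift m y η) n)]
  app := Zp_app
  pos := Zp_pos
  reach := Zp_reach
  max := Zp_max
  crude := Zp_crude
  meas := measurable_Zp

end Pool.Agent.K1H39.KD
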